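import Pool.Agent.H586.AF.E

/-!
# Project AH, task F2: refined final estimate (helper887), adapted from `Pool/Agent/H51/AG/FN.lean` (helper51)
-/

set_option autoImplicit false
set_option linter.unusedVariables false

open MeasureTheory Matrix Finset Filter Topology
open scoped Matrix.Norms.Frobenius

namespace Pool.Agent.H887.AH

open Pool.Agent.H586 Pool.Agent.H586.AF.GG

/-! ### The form `ip` -/

theorem ip_comm {N : ℕ} (A B : Mt N) : ip A B = ip B A := by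
  unfold ip
  have h1 : (Aᴴ * B)ᴴ = Bᴴ * A := by rw [conjTranspose_mul, conjTranspose_conjTranspose]
  rw [← h1, trace_conjTranspose]
  simp

theorem ip_add {N : ℕ} (A B C : Mt N) : ip A (B + C) = ip A B + ip A C := by
  unfold ip
  rw [Matrix.mul_add, trace_add, Complex.add_re]

theorem ip_smul {N : ℕ} (A B : Mt N) (s : ℝ) : ip A (s • B) = s * ip A B := by
  unfold ip
  rw [Matrix.mul_smul, trace_smul, Complex.smul_re, smul_eq_mul]

theorem ip_sum {N : ℕ} {ι : Type} (s : Finset ι) (A : Mt N) (B : ι → Mt N) :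
    ip A (∑ i ∈ s, B i) = ∑ i ∈ s, ip A (B i) := by
  unfold ip
  rw [Matrix.mul_sum, trace_sum, Complex.re_sum]

theorem ip_self {N : ℕ} (A : Mt N) : ip A A = ‖A‖ ^ 2 := by
  have h1 : ‖A‖ ^ 2 = ∑ i, ∑ j, ‖A i j‖ ^ 2 := by
    rw [Matrix.frobenius_norm_def, ← Real.rpow_natCast, ← Real.rpow_mul
      (Finset.sum_nonneg fun i _ => Finset.sum_nonneg fun j _ => by positivity)]
    norm_num
  rw [h1]
  unfold ip
  rw [Matrix.trace, Complex.re_sum, Finset.sum_comm]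
  refine Finset.sum_congr rfl fun j _ => ?_
  rw [Matrix.diag_apply, Matrix.mul_apply, Complex.re_sum]
  refine Finset.sum_congr rfl fun i _ => ?_
  rw [Matrix.conjTranspose_apply, Complex.star_def, Complex.conj_mul']
  norm_cast

theorem abs_ip_le {N : ℕ} (A B : Mt N) (hA : ip A A = 1) : |ip A B| ≤ ‖B‖ := by
  apply abs_le_of_sq_le_sq _ (norm_nonneg B)
  have h1 : 0 ≤ ip (B + (-(ip A B)) • A) (B + (-(ip A B)) • A) := by
    rw [ip_self]
    positivity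
  have h2 : ∀ s : ℝ, ip (B + s • A) (B + s • A) = ip B B + 2 * s * ip A B + s ^ 2 := by
    intro s
    rw [ip_add, ip_smul, ip_comm (B + s • A) B, ip_comm (B + s • A) A, ip_add, ip_smul, ip_add, ip_smul, hA,
      ip_comm B A]
    ring
  rw [h2, ip_self] at h1
  nlinarith

theorem kp_anti {N : ℕ} (X A B : Mt N) (hX : Xᴴ = -X) (hA : Aᴴ = -A) (hB : Bᴴ = -B) :
    kp X B A = -kp X A B := by
  unfold kp
  have h1 : (X * B * A)ᴴ = -(A * B * X) := by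
    rw [conjTranspose_mul, conjTranspose_mul, hX, hA, hB]
    noncomm_ring
  have h2 : (trace (X * B * A)).re = (trace ((X * B * A)ᴴ)).re := by
    rw [trace_conjTranspose]
    simp
  rw [h2, h1, trace_neg, Complex.neg_re, Matrix.trace_mul_cycle]

theorem kp_ip {N : ℕ} (X A B : Mt N) (hX : Xᴴ = -X) (hA : Aᴴ = -A) (hB : Bᴴ = -B) :
    ip (X * A - A * X) B = -(2 * kp X A B) := by
  have h1 : (X * A - A * X)ᴴ = -(X * A - A * X) := by
    rw [conjTranspose_sub, conjTranspose_mul, conjTranspose_mul, hX, hA]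
    noncomm_ring
  have h2 : ip (X * A - A * X) B = -(kp X A B) + kp X B A := by
    unfold ip kp
    rw [h1, Matrix.neg_mul, trace_neg, Matrix.sub_mul, trace_sub, Complex.neg_re, Complex.sub_re,
      Matrix.trace_mul_cycle A X B, Matrix.trace_mul_cycle B A X]
    ring
  rw [h2, kp_anti X A B hX hA hB]
  ring

theorem sum_k {N : ℕ} {G : Subgroup (UU N)} {n : ℕ} (T : Fin n → Mt N) (hT : Bas G T) (X : Mt N)
    (hX : Xᴴ = -X) (hTa : ∀ a, (T a)ᴴ = -T a) (hbr : ∀ a, X * T a - T a * X ∈ Lie G) :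
    ∑ a, ∑ b, kp X (T a) (T b) ^ 2 = (1 / 4) * kil X T := by
  unfold kil
  rw [Finset.mul_sum]
  refine Finset.sum_congr rfl fun a _ => ?_
  unfold gp
  obtain ⟨Y, hY⟩ : ∃ Y, Y = X * T a - T a * X := ⟨_, rfl⟩
  have h1 : ip Y Y = ∑ b, ip Y (T b) ^ 2 := by
    have h2 := hT.span Y (by rw [hY]; exact hbr a)
    calc ip Y Y = ip Y (∑ b, ip (T b) Y • T b) := by rw [← h2]
      _ = ∑ b, ip Y (T b) ^ 2 := by
        rw [ip_sum]
        refine Finset.sum_congr rfl fun b _ => ?_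
        rw [ip_smul, ip_comm (T b) Y]
        ring
  rw [← hY, h1, Finset.mul_sum]
  refine Finset.sum_congr rfl fun b _ => ?_
  rw [hY, kp_ip X (T a) (T b) hX (hTa a) (hTa b)]
  ring

/-! ### The determinant and powers of `β` (from `Pool/Agent/H682/AF/FN.lean`) -/

theorem cx_mul {a b c : Type} [Fintype b] (A : Matrix a b ℝ) (B : Matrix b c ℝ) :
    AF.cx (A * B) = AF.cx A * AF.cx B := by
  ext i j
  simp [Matrix.mul_apply]

theorem trace_cx {a : Type} [Fintype a] (A : Matrix a a ℝ) : (AF.cx A).trace = ((A.trace : ℝ) : ℂ) := by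
  simp [Matrix.trace]

theorem cx_inv {a : Type} [Fintype a] [DecidableEq a] (A : Matrix a a ℝ) (hA : IsUnit A.det) :
    (AF.cx A)⁻¹ = AF.cx A⁻¹ := by
  apply Matrix.inv_eq_right_inv
  rw [← cx_mul, Matrix.mul_nonsing_inv A hA]
  ext i j
  by_cases h : i = j
  · subst h
    simp
  · simp [Matrix.one_apply_ne h]

theorem ld_hC (hHR : AF.S_HR) (hAI : AF.S_AI) (L : ℕ) (hL : 2 ≤ L) :
    AF.ld (AF.hC L) = ((((AF.mA L)⁻¹ * AF.mC L).trace + ((AF.mA L)⁻¹ * AF.mB L * (AF.mA L)⁻¹ * AF.mB L).trace : ℝ) : ℂ) := by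
  obtain ⟨CH, hHR⟩ := hHR
  obtain ⟨h0, -, -, -, h1, h2, -⟩ := hHR L hL
  obtain ⟨hpd, -⟩ := hAI L hL
  have hu : IsUnit (AF.mA L).det := isUnit_iff_ne_zero.2 hpd.det_pos.ne'
  have e1 : (Matrix.of fun i j => deriv (deriv fun θ => AF.hC L θ i j) 0) = AF.cx (AF.mC L) := by
    ext i j
    simp [h2]
  have e2 : (Matrix.of fun i j => deriv (fun θ => AF.hC L θ i j) 0) = Complex.I • AF.cx (AF.mB L) := by
    ext i j
    simp [h1]
  unfold AF.ld
  rw [e1, e2, h0, cx_inv _ hu]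
  have e3 : AF.cx (AF.mA L)⁻¹ * (Complex.I • AF.cx (AF.mB L)) * AF.cx (AF.mA L)⁻¹ * (Complex.I • AF.cx (AF.mB L)) =
      -(AF.cx ((AF.mA L)⁻¹ * AF.mB L * (AF.mA L)⁻¹ * AF.mB L)) := by
    simp only [Matrix.mul_smul, Matrix.smul_mul, smul_smul, Complex.I_mul_I, neg_one_smul, cx_mul]
  rw [e3, ← cx_mul, Matrix.trace_neg, trace_cx, trace_cx]
  push_cast
  ring

theorem beta_pow {β : ℝ} (hβ : 1 ≤ β) :
    β ^ (-(9 / 20) : ℝ) + β * (β ^ (-(9 / 20) : ℝ)) ^ 3 + β ^ 2 * (β ^ (-(9 / 20) : ℝ)) ^ 5 +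
      (1 + β + β ^ 2) * β ^ (-9 : ℝ) ≤ 6 * β ^ (-(1 / 4) : ℝ) := by
  have hβ0 : 0 < β := by linarith
  have a1 : β ^ (-(9 / 20) : ℝ) ≤ β ^ (-(1 / 4) : ℝ) :=
    Real.rpow_le_rpow_of_exponent_le hβ (by norm_num)
  have a2 : β * (β ^ (-(9 / 20) : ℝ)) ^ 3 ≤ β ^ (-(1 / 4) : ℝ) := by
    have e : β * (β ^ (-(9 / 20) : ℝ)) ^ 3 = β ^ (-(7 / 20) : ℝ) := by
      rw [← Real.rpow_natCast (β ^ (-(9 / 20) : ℝ)) 3, ← Real.rpow_mul hβ0.le]
      nth_rewrite 1 [← Real.rpow_one β]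
      rw [← Real.rpow_add hβ0]
      norm_num
    rw [e]
    exact Real.rpow_le_rpow_of_exponent_le hβ (by norm_num)
  have a3 : β ^ 2 * (β ^ (-(9 / 20) : ℝ)) ^ 5 ≤ β ^ (-(1 / 4) : ℝ) := by
    have e : β ^ 2 * (β ^ (-(9 / 20) : ℝ)) ^ 5 = β ^ (-(1 / 4) : ℝ) := by
      rw [← Real.rpow_natCast (β ^ (-(9 / 20) : ℝ)) 5, ← Real.rpow_mul hβ0.le,
        ← Real.rpow_natCast β 2, ← Real.rpow_add hβ0]
      norm_num
    rw [e]
  have a4 : (1 + β + β ^ 2) * β ^ (-9 : ℝ) ≤ 3 * β ^ (-(1 / 4) : ℝ) := by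
    have h1 : 1 + β + β ^ 2 ≤ 3 * β ^ 2 := by nlinarith
    have h2 : 0 < β ^ (-9 : ℝ) := Real.rpow_pos_of_pos hβ0 _
    have e : β ^ 2 * β ^ (-9 : ℝ) = β ^ (-7 : ℝ) := by
      rw [← Real.rpow_natCast β 2, ← Real.rpow_add hβ0]
      norm_num
    calc (1 + β + β ^ 2) * β ^ (-9 : ℝ) ≤ 3 * β ^ 2 * β ^ (-9 : ℝ) :=
          mul_le_mul_of_nonneg_right h1 h2.le
      _ = 3 * β ^ (-7 : ℝ) := by rw [mul_assoc, e]
      _ ≤ 3 * β ^ (-(1 / 4) : ℝ) := by
          apply mul_le_mul_of_nonneg_left _ (by norm_num)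
          exact Real.rpow_le_rpow_of_exponent_le hβ (by norm_num)
  linarith

theorem beta_large {β x : ℝ} (N : ℕ) (hx : 1 ≤ x) (h : x ^ (4 * N) ≤ β) :
    x ^ N * β ^ (-(1 / 4) : ℝ) ≤ 1 := by
  have hx0 : 0 < x := by linarith
  have h1 : β ^ (-(1 / 4) : ℝ) ≤ (x ^ (4 * N)) ^ (-(1 / 4) : ℝ) :=
    Real.rpow_le_rpow_of_nonpos (by positivity) h (by norm_num)
  have h2 : (x ^ (4 * N)) ^ (-(1 / 4) : ℝ) = (x ^ N)⁻¹ := by
    rw [← Real.rpow_natCast x (4 * N), ← Real.rpow_mul hx0.le, ← Real.rpow_natCast x N,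
      ← Real.rpow_neg hx0.le]
    congr 1
    push_cast
    ring
  rw [h2] at h1
  have h3 : 0 < x ^ N := by positivity
  calc x ^ N * β ^ (-(1 / 4) : ℝ) ≤ x ^ N * (x ^ N)⁻¹ := mul_le_mul_of_nonneg_left h1 h3.le
    _ = 1 := mul_inv_cancel₀ h3.ne'

theorem cont_mt {N : ℕ} {G : Subgroup (UU N)} : Continuous (fun g : G => mt g) := by
  exact continuous_subtype_val.comp continuous_subtype_val

theorem meas_ip {N : ℕ} {G : Subgroup (UU N)} [MeasurableSpace G] [BorelSpace G] (A : Mt N) :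
    Measurable (fun g : G => ip A (mt g - 1)) := by
  have h1 : Continuous (fun B : Mt N => ip A B) := by
    unfold ip
    exact Complex.continuous_re.comp ((continuous_const.matrix_mul continuous_id).matrix_trace)
  exact (h1.comp (cont_mt.sub continuous_const)).measurable

theorem meas_norm {N : ℕ} {G : Subgroup (UU N)} [MeasurableSpace G] [BorelSpace G] :
    Measurable (fun g : G => ‖mt g - 1‖) :=
  ((cont_mt.sub continuous_const).norm).measurable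

theorem tf2 (hGF : S_GF) (hZD : AF.S_ZD) (hLP : S_LP) (hM3 : S_M3) (hE3 : S_E3) (hPB : S_PB)
    (hEB : S_EB) (hLIE : S_LIE) (hHR : AF.S_HR) (hAI : AF.S_AI) (hL1 : AF.S_L1) :
    AF.EE.S_F2 := by
  intro N G _ _ hG n T hT X hX
  have hld := fun L hL => ld_hC hHR hAI L hL
  obtain ⟨-, hLIE⟩ := hLIE G hG
  obtain ⟨hTa, hXa, hbr, -⟩ := hLIE T hT
  have hXX := hXa X hX
  have hkk := sum_k T hT X hXX hTa (fun a => hbr X hX (T a) (hT.mem a))
  obtain ⟨CM, kM, KM, hCM, hM3⟩ := hM3 hG T hT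
  obtain ⟨CE, hE3⟩ := hE3 hG T hT X hX
  obtain ⟨CH, hHR⟩ := hHR
  obtain ⟨k, hk⟩ : ∃ k : Matrix (Fin n) (Fin n) ℝ, k = Matrix.of fun a b => kp X (T a) (T b) := ⟨_, rfl⟩
  obtain ⟨g, hg⟩ : ∃ g : Matrix (Fin n) (Fin n) ℝ, g = Matrix.of fun a b => gp X (T a) (T b) := ⟨_, rfl⟩
  obtain ⟨h, hh⟩ : ∃ h : Matrix (Fin n) (Fin n) ℝ, h = Matrix.of fun a b => hp X (T a) (T b) := ⟨_, rfl⟩
  have hk' : ∀ a b, k a b = kp X (T a) (T b) := fun a b => by rw [hk]; rfl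
  have hg' : ∀ a b, g a b = gp X (T a) (T b) := fun a b => by rw [hg]; rfl
  have hh' : ∀ a b, h a b = hp X (T a) (T b) := fun a b => by rw [hh]; rfl
  have hksk : kᵀ = -k := by
    ext a b
    rw [Matrix.transpose_apply, Matrix.neg_apply, hk', hk', kp_anti X (T a) (T b) hXX (hTa a) (hTa b)]
  have hgtr : g.trace = kil X T := by
    unfold kil Matrix.trace
    refine Finset.sum_congr rfl fun a _ => ?_
    rw [Matrix.diag_apply, hg']
  have hksum : ∑ a, ∑ b, k a b ^ 2 = (1 / 4) * kil X T := by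
    rw [← hkk]
    refine Finset.sum_congr rfl fun a _ => Finset.sum_congr rfl fun b _ => ?_
    rw [hk']
  obtain ⟨ck, hck⟩ : ∃ ck : ℝ, ck = ∑ a, ∑ b, (|k a b| + |g a b| + |h a b|) := ⟨_, rfl⟩
  have hckb : ∀ a b, |k a b| + |g a b| + |h a b| ≤ ck := by
    intro a b
    rw [hck]
    have h1 : |k a b| + |g a b| + |h a b| ≤ ∑ b, (|k a b| + |g a b| + |h a b|) :=
      Finset.single_le_sum (f := fun b => |k a b| + |g a b| + |h a b|) (fun _ _ => by positivity)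
        (Finset.mem_univ b)
    have h2 : ∑ b, (|k a b| + |g a b| + |h a b|) ≤ ∑ a, ∑ b, (|k a b| + |g a b| + |h a b|) :=
      Finset.single_le_sum (f := fun a => ∑ b, (|k a b| + |g a b| + |h a b|))
        (fun _ _ => Finset.sum_nonneg fun _ _ => by positivity) (Finset.mem_univ a)
    exact h1.trans h2
  have hck0 : 0 ≤ ck := by
    rw [hck]
    exact Finset.sum_nonneg fun _ _ => Finset.sum_nonneg fun _ _ => by positivity
  obtain ⟨c, hc⟩ : ∃ c : ℝ, c = |CE| + |CH| + 50 + 12 * N + n + ck := ⟨_, rfl⟩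
  have hCE := abs_nonneg CE
  have hCH := abs_nonneg CH
  have hN0 : (0 : ℝ) ≤ N := Nat.cast_nonneg N
  have hn0 : (0 : ℝ) ≤ n := Nat.cast_nonneg n
  have hc50 : 50 ≤ c := by linarith
  have hc12 : 12 * (N : ℝ) ≤ c := by linarith
  have hcn : (n : ℝ) ≤ c := by linarith
  have hcck : ck ≤ c := by linarith
  obtain ⟨m, hm⟩ : ∃ m : ℕ, 1000 * c ^ 40 * (CM + 6) < 2 ^ m :=
    pow_unbounded_of_one_lt _ one_lt_two
  have hhtr : ∑ a, hp X (T a) (T a) = h.trace := by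
    unfold Matrix.trace
    refine Finset.sum_congr rfl fun a _ => ?_
    rw [Matrix.diag_apply, hh']
  refine ⟨4 * (240 + kM + m) + KM, fun μ _ _ L hL β hβ => ?_⟩
  have hL2r : (2 : ℝ) ≤ L := by exact_mod_cast hL
  have hL1r : (1 : ℝ) ≤ L := by linarith
  have hL0r : (0 : ℝ) < L := by linarith
  have hβ1 : (L : ℝ) ^ (4 * (240 + kM + m)) ≤ β :=
    (pow_le_pow_right₀ hL1r (by omega)).trans hβ
  have hβ2 : (L : ℝ) ^ KM ≤ β := (pow_le_pow_right₀ hL1r (by omega)).trans hβ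
  have hβ3 : 1 ≤ β := (one_le_pow₀ hL1r).trans hβ
  have hβ0 : 0 < β := by linarith
  obtain ⟨hm2, hm4, htail⟩ := hM3 μ L hL β hβ2
  obtain ⟨e1, e2, hme1, hme2, hmen, hder, hexp⟩ := hE3 L hL
  obtain ⟨hE1, hEX, -, hEcard⟩ := hEB (N := N) (G := G) L hL
  obtain ⟨hP, hZpos, hPint⟩ := hPB hG μ L hL β
  obtain ⟨hpd, hinv, htr0, htr3, hR10, -⟩ := hAI L hL
  obtain ⟨-, hAs, hBs, hCs, -, -, hbd⟩ := hHR L hL
  have hldL := hld L hL
  rw [(hL1 L hL).1] at hldL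
  have hLL : AF.LL L = ((AF.mA L)⁻¹ * AF.mC L).trace +
      ((AF.mA L)⁻¹ * AF.mB L * (AF.mA L)⁻¹ * AF.mB L).trace := by
    exact_mod_cast hldL
  have := hP
  obtain ⟨b4, hb4⟩ : ∃ b4 : ℝ, b4 = β ^ (-(1 / 4) : ℝ) := ⟨_, rfl⟩
  have hb40 : 0 < b4 := by rw [hb4]; exact Real.rpow_pos_of_pos hβ0 _
  have hLb : (L : ℝ) ^ (240 + kM + m) * b4 ≤ 1 := by
    rw [hb4]
    exact beta_large _ hL1r hβ1
  have hsum := beta_pow hβ3
  rw [← hb4] at hsum
  rw [← hb4] at hm2 hm4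
  obtain ⟨K, hK⟩ : ∃ K : ℝ, K = c * (L : ℝ) ^ 6 := ⟨_, rfl⟩
  obtain ⟨ε, hε⟩ : ∃ ε : ℝ, ε = (CM + 6) * (L : ℝ) ^ kM * b4 := ⟨_, rfl⟩
  have hL6 : (1 : ℝ) ≤ (L : ℝ) ^ 6 := one_le_pow₀ hL1r
  have hLk : (1 : ℝ) ≤ (L : ℝ) ^ kM := one_le_pow₀ hL1r
  have hcK : c ≤ K := by rw [hK]; nlinarith
  have hK1 : 1 ≤ K := by linarith
  have hL46 : (L : ℝ) ^ 4 ≤ (L : ℝ) ^ 6 := pow_le_pow_right₀ hL1r (by norm_num)
  have hL26 : (L : ℝ) ^ 2 ≤ (L : ℝ) ^ 6 := pow_le_pow_right₀ hL1r (by norm_num)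
  have hL16 : (L : ℝ) ≤ (L : ℝ) ^ 6 := by
    calc (L : ℝ) = (L : ℝ) ^ 1 := (pow_one _).symm
      _ ≤ (L : ℝ) ^ 6 := pow_le_pow_right₀ hL1r (by norm_num)
  have hε0 : 0 ≤ ε := by rw [hε]; positivity
  have h2n : (2 : ℝ) ^ m ≤ (L : ℝ) ^ m := pow_le_pow_left₀ (by norm_num) hL2r m
  have hKε : 1000 * K ^ 40 * ε ≤ 1 := by
    have h1 : 1000 * K ^ 40 * ε = (1000 * c ^ 40 * (CM + 6)) * ((L : ℝ) ^ (240 + kM) * b4) := by
      rw [hK, hε]
      ring
    rw [h1]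
    calc (1000 * c ^ 40 * (CM + 6)) * ((L : ℝ) ^ (240 + kM) * b4)
        ≤ (L : ℝ) ^ m * ((L : ℝ) ^ (240 + kM) * b4) :=
          mul_le_mul_of_nonneg_right (hm.le.trans h2n) (by positivity)
      _ = (L : ℝ) ^ (240 + kM + m) * b4 := by ring
      _ ≤ 1 := hLb
  have hε1 : ε ≤ 1 := by
    have h1 : ε ≤ 1000 * K ^ 40 * ε := by
      have : (1 : ℝ) ≤ 1000 * K ^ 40 := by
        have : (1 : ℝ) ≤ K ^ 40 := one_le_pow₀ hK1
        linarith
      exact le_mul_of_one_le_left hε0 this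
    linarith
  have hb4ε : 6 * b4 ≤ ε := by
    rw [hε]
    have h1 : 6 * b4 ≤ (CM + 6) * b4 := mul_le_mul_of_nonneg_right (by linarith) hb40.le
    have h2 : (CM + 6) * b4 ≤ (CM + 6) * (L : ℝ) ^ kM * b4 := by
      apply mul_le_mul_of_nonneg_right _ hb40.le
      exact le_mul_of_one_le_right (by linarith) hLk
    linarith
  have hMε : CM * (L : ℝ) ^ kM * b4 ≤ ε := by
    rw [hε]
    apply mul_le_mul_of_nonneg_right _ hb40.le
    apply mul_le_mul_of_nonneg_right _ (by positivity)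
    linarith
  have hsz0 : ∀ σ : AF.IH L → G, 0 ≤ sz σ := fun σ => Finset.sum_nonneg fun _ _ => norm_nonneg _
  have hCEK : CE * (L : ℝ) ^ 6 ≤ K := by
    rw [hK]
    apply mul_le_mul_of_nonneg_right _ (by positivity)
    linarith [le_abs_self CE]
  have h50K : 50 * (L : ℝ) ^ 6 ≤ K := by
    rw [hK]
    exact mul_le_mul_of_nonneg_right hc50 (by positivity)
  have h12K : 12 * (N : ℝ) * (L : ℝ) ^ 6 ≤ K := by
    rw [hK]
    exact mul_le_mul_of_nonneg_right hc12 (by positivity)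
  have hmain := hLP (gb μ L β) (fun x σ => ip (T x.2) (wf σ x.1)) (fun σ => 2 * sz σ) (e1 0) (e2 0)
    (AF.mC L) (AF.mB L) ((AF.mA L)⁻¹) (AF.mR L) k g h (ip X X * (L : ℝ) ^ 3 * (L - 1)) β K
    (β ^ (-(9 / 20) : ℝ)) (β ^ (-9 : ℝ)) ε hK1 hβ3 (Real.rpow_nonneg hβ0.le _)
    (Real.rpow_nonneg hβ0.le _) hε0 hε1
    ?_ (hme1 0) (hme2 0) ?_ ?_ ?_ ?_ (hcn.trans hcK) ?_ hBs hksk ?_ ?_ htail (by linarith) ?_ ?_ ?_ ?_
  · -- the conclusion
    have hz := hZD (Measure.pi fun _ : AF.IH L => μ) (fun θ σ => en X L θ σ) e1 e2 (CE * (L : ℝ) ^ 6) β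
      hmen hme1 hme2 (fun θ σ => (hder θ σ).1) (fun θ σ => (hder θ σ).2.1)
      (fun θ σ => ⟨(hder θ σ).2.2.2.2, (hder θ σ).2.2.1, (hder θ σ).2.2.2.1⟩)
    have hfun : (fun θ => -Real.log (ZZ μ X L β θ)) =
        fun θ => -Real.log (∫ σ : AF.IH L → G, Real.exp (-(β * en X L θ σ))
          ∂(Measure.pi fun _ : AF.IH L => μ)) := by
      funext θ
      rw [hGF hG μ X hX L hL β θ]
    rw [hfun, hz]
    simp only [hEX X]
    rw [← hPint (e2 0), ← hPint (fun σ => e1 0 σ ^ 2), ← hPint (e1 0)]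
    have hD : |β * ∫ σ, e2 0 σ ∂(gb μ L β) - β ^ 2 * (∫ σ, e1 0 σ ^ 2 ∂(gb μ L β) -
        (∫ σ, e1 0 σ ∂(gb μ L β)) ^ 2) - (β * (ip X X * (L : ℝ) ^ 3 * (L - 1)) +
        (1 / 2) * kil X T * AF.LL L - (1 / 8) * h.trace * ((AF.mA L)⁻¹ * AF.mR L).trace)| ≤ 1 := by
      refine le_trans (le_of_eq ?_) (hmain.trans hKε)
      rw [hLL, hgtr, hksum]
      congr 1
      ring
    rw [hhtr]
    refine le_trans (le_of_eq ?_) hD
    congr 1
    ring
  · intro i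
    exact (meas_ip (T i.2)).comp (measurable_pi_apply i.1)
  · show Measurable fun σ : AF.IH L → G => 2 * sz σ
    unfold sz
    refine Measurable.const_mul (Finset.measurable_sum _ fun l _ => ?_) 2
    exact meas_norm.comp (measurable_pi_apply l)
  · intro i σ
    have h1 : ip (T i.2) (T i.2) = 1 := by rw [hT.orth]; simp
    have h2 := abs_ip_le (T i.2) (wf σ i.1) h1
    have h3 : ‖wf σ i.1‖ ≤ sz σ :=
      Finset.single_le_sum (f := fun l => ‖mt (σ l) - 1‖) (fun _ _ => norm_nonneg _)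
        (Finset.mem_univ i.1)
    have h4 := hsz0 σ
    show |ip (T i.2) (wf σ i.1)| ≤ 2 * sz σ
    linarith
  · intro σ
    have h1 := (hE1 σ).2.2.2
    show 2 * sz σ ≤ K
    have h2 : 6 * (N : ℝ) * (L : ℝ) ^ 4 ≤ 6 * (N : ℝ) * (L : ℝ) ^ 6 :=
      mul_le_mul_of_nonneg_left hL46 (by positivity)
    linarith
  · linarith
  · show ((AF.mA L)⁻¹)ᵀ = (AF.mA L)⁻¹
    rw [Matrix.transpose_nonsing_inv, hAs]
  · intro a b
    have h1 := hckb a b
    have h2 := abs_nonneg (k a b)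
    have h3 := abs_nonneg (g a b)
    have h4 := abs_nonneg (h a b)
    refine ⟨?_, ?_, ?_⟩ <;> linarith
  · intro i j
    have h3 : |CH| * (L : ℝ) ^ 6 ≤ K := by
      rw [hK]
      apply mul_le_mul_of_nonneg_right _ (by positivity)
      linarith
    obtain ⟨hb1, hb2, hb3⟩ := hbd i j
    refine ⟨?_, ?_, ?_, ?_⟩
    · refine hb3.trans (le_trans ?_ h3)
      exact mul_le_mul (le_abs_self CH) hL26 (by positivity) (abs_nonneg _)
    · refine hb2.trans (le_trans ?_ h3)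
      exact mul_le_mul (le_abs_self CH) hL16 (by positivity) (abs_nonneg _)
    · refine (hinv i j).trans ?_
      linarith
    · refine (hR10 i j).trans ?_
      linarith
  · intro x y
    exact (hm2 x y).trans hMε
  · intro x y z w
    exact (hm4 x y z w).trans hMε
  · intro σ
    simp only [hk']
    refine (hexp σ).1.trans ?_
    have h1 : 0 ≤ sz σ ^ 3 := pow_nonneg (hsz0 σ) 3
    calc CE * (L : ℝ) ^ 6 * sz σ ^ 3 ≤ K * sz σ ^ 3 := mul_le_mul_of_nonneg_right hCEK h1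
      _ ≤ K * (2 * sz σ) ^ 3 := by
          apply mul_le_mul_of_nonneg_left _ (by linarith)
          rw [mul_pow]
          linarith
  · intro σ
    simp only [hg', hh']
    refine (hexp σ).2.trans ?_
    have h1 : 0 ≤ sz σ ^ 3 := pow_nonneg (hsz0 σ) 3
    calc CE * (L : ℝ) ^ 6 * sz σ ^ 3 ≤ K * sz σ ^ 3 := mul_le_mul_of_nonneg_right hCEK h1
      _ ≤ K * (2 * sz σ) ^ 3 := by
          apply mul_le_mul_of_nonneg_left _ (by linarith)
          rw [mul_pow]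
          linarith

end Pool.Agent.H887.AH
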