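import Pool.Agent.H523.AH.Stm

set_option autoImplicit false

/-! # The pointwise bound of the test function (helper887) -/

namespace Pool.Agent.H887.AH

open Finset
open Pool.Agent.H523.AH

theorem Ioo_succ (h : ℕ) : Ioo (-((h + 2 : ℕ) : ℤ)) ((h + 2 : ℕ) : ℤ) =
    insert ((h : ℤ) + 1) (insert (-((h : ℤ) + 1))
      (Ioo (-((h + 1 : ℕ) : ℤ)) ((h + 1 : ℕ) : ℤ))) := by
  ext k
  simp only [mem_Ioo, mem_insert]
  push_cast
  omega

theorem sum_succ (g : ℤ → ℝ) (h : ℕ) : ∑ k ∈ Ioo (-((h + 2 : ℕ) : ℤ)) ((h + 2 : ℕ) : ℤ), g k =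
    g (h + 1) + (g (-(h + 1)) + ∑ k ∈ Ioo (-((h + 1 : ℕ) : ℤ)) ((h + 1 : ℕ) : ℤ), g k) := by
  rw [Ioo_succ, sum_insert, sum_insert]
  · rw [mem_Ioo]
    push_cast
    omega
  · rw [mem_insert, mem_Ioo]
    push_cast
    omega

/-- the sums with the weights `h - |k|` -/
noncomputable def GG (g : ℤ → ℝ) (h : ℕ) : ℝ :=
  ∑ k ∈ Ioo (-(h:ℤ)) h, ((h:ℝ) - |(k:ℝ)|) * g k

theorem GG_succ (g : ℤ → ℝ) (h : ℕ) : GG g (h + 1) = GG g h +
    ∑ k ∈ Ioo (-((h + 1 : ℕ) : ℤ)) ((h + 1 : ℕ) : ℤ), g k := by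
  unfold GG
  have h1 : ∑ k ∈ Ioo (-(h:ℤ)) h, ((h:ℝ) - |(k:ℝ)|) * g k =
      ∑ k ∈ Ioo (-((h + 1 : ℕ) : ℤ)) ((h + 1 : ℕ) : ℤ), ((h:ℝ) - |(k:ℝ)|) * g k := by
    refine sum_subset ?_ ?_
    · intro k hk
      rw [mem_Ioo] at hk ⊢
      push_cast
      omega
    · intro k hk hk'
      rw [mem_Ioo] at hk hk'
      push_cast at hk
      have h2 : |k| = (h : ℤ) := by
        rcases abs_cases k with h | h <;> omega
      have h3 : |(k:ℝ)| = h := by exact_mod_cast h2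
      rw [h3, sub_self, zero_mul]
  rw [h1, ← sum_add_distrib]
  refine sum_congr rfl fun k _ => ?_
  push_cast
  ring

theorem dirichlet (θ : ℝ) (h : ℕ) :
    (∑ k ∈ Ioo (-((h + 1 : ℕ) : ℤ)) ((h + 1 : ℕ) : ℤ), Real.cos (k * θ)) * Real.sin (θ / 2) =
      Real.sin ((h + 1 / 2) * θ) := by
  induction h with
  | zero =>
    have e : Ioo (-((0 + 1 : ℕ) : ℤ)) ((0 + 1 : ℕ) : ℤ) = {0} := by
      ext k
      rw [mem_Ioo, mem_singleton]
      push_cast
      omega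
    rw [e, sum_singleton]
    simp only [Int.cast_zero, zero_mul, Real.cos_zero, one_mul, Nat.cast_zero, zero_add]
    congr 1
    ring
  | succ h ih =>
    have e := sum_succ (fun k => Real.cos (k * θ)) h
    have e' : ((h + 1 + 1 : ℕ) : ℤ) = ((h + 2 : ℕ) : ℤ) := rfl
    rw [e', e, add_mul, add_mul, ih]
    push_cast
    have h1 : Real.cos (-((h:ℝ) + 1) * θ) = Real.cos (((h:ℝ) + 1) * θ) := by
      rw [neg_mul, Real.cos_neg]
    have h2 : Real.sin (((h:ℝ) + 1 + 1 / 2) * θ) = Real.sin (((h:ℝ) + 1) * θ) * Real.cos (θ / 2) +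
        Real.cos (((h:ℝ) + 1) * θ) * Real.sin (θ / 2) := by
      rw [← Real.sin_add]; congr 1; ring
    have h3 : Real.sin (((h:ℝ) + 1 / 2) * θ) = Real.sin (((h:ℝ) + 1) * θ) * Real.cos (θ / 2) -
        Real.cos (((h:ℝ) + 1) * θ) * Real.sin (θ / 2) := by
      rw [← Real.sin_sub]; congr 1; ring
    rw [h1, h2, h3]
    ring

theorem fejer (θ : ℝ) (h : ℕ) :
    GG (fun k => Real.cos (k * θ)) h * Real.sin (θ / 2) ^ 2 = Real.sin (h * θ / 2) ^ 2 := by
  induction h with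
  | zero => simp [GG]
  | succ h ih =>
    rw [GG_succ, add_mul, ih, sq (Real.sin (θ / 2)), ← mul_assoc, dirichlet]
    push_cast
    have h1 : Real.sin (((h:ℝ) + 1) * θ / 2) = Real.sin ((h:ℝ) * θ / 2) * Real.cos (θ / 2) +
        Real.cos ((h:ℝ) * θ / 2) * Real.sin (θ / 2) := by
      rw [← Real.sin_add]; congr 1; ring
    have h2 : Real.sin (((h:ℝ) + 1 / 2) * θ) = Real.sin ((h:ℝ) * θ / 2 + ((h:ℝ) * θ / 2 + θ / 2)) := by
      congr 1; ring
    rw [h1, h2, Real.sin_add, Real.sin_add, Real.cos_add]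
    have h3 := Real.sin_sq_add_cos_sq (θ / 2)
    have h4 := Real.sin_sq_add_cos_sq ((h:ℝ) * θ / 2)
    set a := Real.sin ((h:ℝ) * θ / 2)
    set b := Real.cos ((h:ℝ) * θ / 2)
    set s := Real.sin (θ / 2)
    set c := Real.cos (θ / 2)
    linear_combination (-(a ^ 2)) * h3

theorem fej_GG {h : ℕ} (hh : 1 ≤ h) (θ : ℝ) :
    fej h θ * h = GG (fun k => Real.cos (k * θ)) h := by
  have h0 : (h:ℝ) ≠ 0 := by
    have : (0:ℝ) < h := by exact_mod_cast hh
    exact this.ne'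
  unfold fej GG
  rw [sum_mul]
  refine sum_congr rfl fun k _ => ?_
  field_simp

theorem weight_nonneg {h : ℕ} {k : ℤ} (hk : k ∈ Ioo (-(h:ℤ)) h) : 0 ≤ 1 - |(k:ℝ)| / h := by
  rw [mem_Ioo] at hk
  have h1 : |k| < h := abs_lt.2 hk
  have h2 : |(k:ℝ)| < h := by exact_mod_cast h1
  have h3 : (0:ℝ) < h := lt_of_le_of_lt (abs_nonneg _) h2
  rw [sub_nonneg, div_le_one h3]
  exact h2.le

theorem card_sum (h : ℕ) : ∑ _k ∈ Ioo (-((h + 1 : ℕ) : ℤ)) ((h + 1 : ℕ) : ℤ), (1:ℝ) =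
    2 * h + 1 := by
  rw [sum_const, Int.card_Ioo, nsmul_eq_mul, mul_one]
  have : (((h + 1 : ℕ) : ℤ) - -((h + 1 : ℕ) : ℤ) - 1).toNat = 2 * h + 1 := by omega
  rw [this]
  push_cast
  ring

theorem GG_one (h : ℕ) : GG (fun _ => 1) h = (h:ℝ) ^ 2 := by
  induction h with
  | zero => simp [GG]
  | succ h ih =>
    rw [GG_succ, ih, card_sum]
    push_cast
    ring

theorem fej_le {h : ℕ} (hh : 1 ≤ h) (θ : ℝ) : fej h θ ≤ h := by
  have h0 : (0:ℝ) < h := by exact_mod_cast hh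
  have h1 : fej h θ ≤ ∑ k ∈ Ioo (-(h:ℤ)) h, (1 - |(k:ℝ)| / h) * 1 := by
    unfold fej
    exact sum_le_sum fun k hk => mul_le_mul_of_nonneg_left (Real.cos_le_one _) (weight_nonneg hk)
  have h2 : (∑ k ∈ Ioo (-(h:ℤ)) h, (1 - |(k:ℝ)| / h) * 1) * h = (h:ℝ) ^ 2 := by
    rw [← GG_one]
    unfold GG
    rw [sum_mul]
    refine sum_congr rfl fun k _ => ?_
    field_simp
  have h3 : (∑ k ∈ Ioo (-(h:ℤ)) h, (1 - |(k:ℝ)| / h) * 1) = h := by
    have h4 : (∑ k ∈ Ioo (-(h:ℤ)) h, (1 - |(k:ℝ)| / h) * 1) * h = (h:ℝ) * h := by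
      rw [h2]; ring
    exact mul_right_cancel₀ h0.ne' h4
  linarith

theorem fej_nonneg {h : ℕ} (hh : 1 ≤ h) {θ : ℝ} (hθ : |θ| ≤ Real.pi) : 0 ≤ fej h θ := by
  have h0 : (0:ℝ) < h := by exact_mod_cast hh
  rcases eq_or_ne (Real.sin (θ / 2)) 0 with hs | hs
  · have hpi := Real.pi_pos
    have h1 := abs_le.1 hθ
    have h2 : θ / 2 = 0 := by
      refine (Real.sin_eq_zero_iff_of_lt_of_lt ?_ ?_).1 hs <;> linarith [h1.1, h1.2]
    have h3 : θ = 0 := by linarith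
    rw [h3]
    unfold fej
    refine sum_nonneg fun k hk => ?_
    rw [mul_zero, Real.cos_zero, mul_one]
    exact weight_nonneg hk
  · have h1 := fejer θ h
    rw [← fej_GG hh] at h1
    have h2 : 0 < (h:ℝ) * Real.sin (θ / 2) ^ 2 := by positivity
    have h3 : 0 ≤ fej h θ * ((h:ℝ) * Real.sin (θ / 2) ^ 2) := by
      rw [← mul_assoc, h1]
      positivity
    exact nonneg_of_mul_nonneg_left h3 h2

theorem odd_sum (h : ℕ) (θ : ℝ) :
    ∑ k ∈ Ioo (-(h:ℤ)) h, (1 - |(k:ℝ)| / h) * Real.sin (k * θ) = 0 := by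
  have h1 : ∑ k ∈ Ioo (-(h:ℤ)) h, (1 - |(k:ℝ)| / h) * Real.sin (k * θ) =
      ∑ k ∈ Ioo (-(h:ℤ)) h, -((1 - |(k:ℝ)| / h) * Real.sin (k * θ)) := by
    refine sum_bij (fun k _ => -k) ?_ ?_ ?_ ?_
    · intro k hk
      rw [mem_Ioo] at hk ⊢
      omega
    · intro a _ b _ hab
      exact neg_injective hab
    · intro b hb
      refine ⟨-b, ?_, neg_neg b⟩
      rw [mem_Ioo] at hb ⊢
      omega
    · intro k _
      push_cast
      rw [abs_neg, neg_mul, Real.sin_neg]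
      ring
  rw [sum_neg_distrib] at h1
  linarith

theorem tst_eq (d m₀ h : ℕ) (θ : ℝ) : tst d m₀ h θ =
    -2 * Real.sin (d * θ) * Real.sin ((d - m₀) * θ) * fej h θ := by
  have h1 : ∀ k ∈ Ioo (-(h:ℤ)) h, (1 - |(k:ℝ)| / h) *
      (Real.cos ((2 * d - m₀ - k) * θ) - Real.cos ((m₀ + k) * θ)) =
      -2 * Real.sin (d * θ) * Real.sin ((d - m₀) * θ) * ((1 - |(k:ℝ)| / h) * Real.cos (k * θ)) +
      2 * Real.sin (d * θ) * Real.cos ((d - m₀) * θ) * ((1 - |(k:ℝ)| / h) * Real.sin (k * θ)) := by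
    intro k _
    have e1 : Real.cos ((2 * d - m₀ - k) * θ) = Real.cos (d * θ) *
        Real.cos (((d:ℝ) - m₀) * θ - k * θ) -
        Real.sin (d * θ) * Real.sin (((d:ℝ) - m₀) * θ - k * θ) := by
      rw [← Real.cos_add]; congr 1; ring
    have e2 : Real.cos ((m₀ + k) * θ) = Real.cos (d * θ) *
        Real.cos (((d:ℝ) - m₀) * θ - k * θ) +
        Real.sin (d * θ) * Real.sin (((d:ℝ) - m₀) * θ - k * θ) := by
      rw [← Real.cos_sub]; congr 1; ring
    rw [e1, e2, Real.sin_sub]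
    ring
  unfold tst
  rw [sum_congr rfl h1, sum_add_distrib, ← mul_sum, ← mul_sum, odd_sum, mul_zero, add_zero]
  rfl

theorem tst_le (d m₀ : ℕ) {h : ℕ} (hh : 1 ≤ h) {θ : ℝ} (hθ : |θ| ≤ Real.pi) :
    tst d m₀ h θ ≤ 2 * |Real.sin (d * θ)| * fej h θ := by
  have h1 := fej_nonneg hh hθ
  rw [tst_eq]
  refine mul_le_mul_of_nonneg_right ?_ h1
  have h2 : |Real.sin (d * θ) * Real.sin ((d - m₀) * θ)| ≤ |Real.sin (d * θ)| := by
    rw [abs_mul]
    exact mul_le_of_le_one_right (abs_nonneg _) (Real.abs_sin_le_one _)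
  have h3 := neg_abs_le (Real.sin (d * θ) * Real.sin ((d - m₀) * θ))
  nlinarith [h2, h3]

theorem abs_sin_sub (x : ℝ) (n : ℤ) : |Real.sin (x - n * Real.pi)| = |Real.sin x| := by
  rw [Real.sin_sub_int_mul_pi]
  rcases Int.even_or_odd n with h | h
  · rw [h.neg_one_zpow, one_mul]
  · rw [h.neg_one_zpow, neg_one_mul, abs_neg]

theorem sin_half {θ : ℝ} (hθ : |θ| ≤ Real.pi) : (θ / Real.pi) ^ 2 ≤ Real.sin (θ / 2) ^ 2 := by
  have hpi := Real.pi_pos
  have h1 : |θ| / Real.pi ≤ |Real.sin (θ / 2)| := by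
    have h2 := Real.mul_le_sin (x := |θ| / 2) (by positivity) (by linarith)
    have h3 : 2 / Real.pi * (|θ| / 2) = |θ| / Real.pi := by field_simp
    rw [h3] at h2
    have h4 : |Real.sin (θ / 2)| = |Real.sin (|θ| / 2)| := by
      rcases abs_cases θ with h | h
      · rw [h.1]
      · rw [h.1, neg_div, Real.sin_neg, abs_neg]
    rw [h4]
    exact h2.trans (le_abs_self _)
  have h5 := pow_le_pow_left₀ (by positivity) h1 2
  rw [sq_abs, div_pow, sq_abs] at h5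
  rw [div_pow]
  exact h5

open scoped Classical in
theorem main : S_Q1 := by
  intro d m₀ h h₀ c R hd hh hh0 hc hdR θ hθ
  have hpi := Real.pi_pos
  have hF := fej_nonneg hh hθ
  have hF0 := fej_nonneg hh0 hθ
  have hFh := fej_le hh θ
  have hFh0 := fej_le hh0 θ
  have hh0' : (0:ℝ) < h₀ := by exact_mod_cast hh0
  have hd' : (0:ℝ) < d := by exact_mod_cast hd
  have hh' : (0:ℝ) < h := by exact_mod_cast hh
  have ht := tst_le d m₀ hh hθ
  have h2 : tst d m₀ h θ ≤ 2 * fej h θ := by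
    refine ht.trans (mul_le_mul_of_nonneg_right ?_ hF)
    linarith [Real.abs_sin_le_one (d * θ)]
  have hA : 0 ≤ 4 * Real.pi * c * fej h θ := by positivity
  have hB : 0 ≤ 8 / 3 * (fej h θ - fej h θ * fej h₀ θ / h₀) := by
    have h3 : fej h θ * fej h₀ θ / h₀ ≤ fej h θ := by
      rw [div_le_iff₀ hh0']
      exact mul_le_mul_of_nonneg_left hFh0 hF
    linarith
  have hC : 0 ≤ 2 * (h:ℝ) * (if Off c R d θ then (1:ℝ) else 0) := by
    split_ifs <;> positivity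
  by_cases ha : ∃ k : ℤ, |d * θ / (2 * Real.pi) - k / 2| < c
  · obtain ⟨k, hk⟩ := ha
    have h3 : |Real.sin (d * θ)| ≤ 2 * Real.pi * c := by
      rw [← abs_sin_sub (d * θ) k]
      have h4 : |Real.sin (d * θ - k * Real.pi)| ≤ |d * θ - k * Real.pi| := by
        exact Real.abs_sin_le_abs
      have h5 : d * θ - k * Real.pi = 2 * Real.pi * (d * θ / (2 * Real.pi) - k / 2) := by
        field_simp
      rw [h5, abs_mul, abs_of_pos (by positivity : (0:ℝ) < 2 * Real.pi)] at h4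
      rw [h5]
      exact h4.trans (mul_le_mul_of_nonneg_left hk.le (by positivity))
    have h4 : 2 * |Real.sin (d * θ)| * fej h θ ≤ 4 * Real.pi * c * fej h θ :=
      mul_le_mul_of_nonneg_right (by linarith) hF
    linarith
  · push Not at ha
    by_cases hb : |d * θ / (2 * Real.pi)| ≤ R
    · have hOff : Off c R d θ := ⟨hb, ha⟩
      rw [if_pos hOff] at hC ⊢
      linarith
    · push Not at hb
      have h3 : 2 / (h₀:ℝ) < |θ| / Real.pi := by
        rw [abs_div, abs_mul, abs_of_pos hd', abs_of_pos (by positivity : (0:ℝ) < 2 * Real.pi),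
          lt_div_iff₀ (by positivity)] at hb
        rw [div_lt_div_iff₀ hh0' hpi]
        have h4 : R * (2 * Real.pi) * h₀ < d * |θ| * h₀ := mul_lt_mul_of_pos_right hb hh0'
        have h5 : (d:ℝ) * (2 * Real.pi) ≤ R * h₀ * (2 * Real.pi) :=
          mul_le_mul_of_nonneg_right hdR (by positivity)
        have h6 : (d:ℝ) * (2 * Real.pi) < d * (|θ| * h₀) := by linarith
        have h7 := lt_of_mul_lt_mul_left h6 hd'.le
        exact h7
      have h4 : (2 / (h₀:ℝ)) ^ 2 ≤ Real.sin (θ / 2) ^ 2 := by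
        refine le_trans ?_ (sin_half hθ)
        rw [← sq_abs (θ / Real.pi), abs_div, abs_of_pos hpi]
        exact pow_le_pow_left₀ (by positivity) h3.le 2
      have h5 := fejer θ h₀
      rw [← fej_GG hh0] at h5
      have h6 : fej h₀ θ / h₀ ≤ 1 / 4 := by
        have h7 : fej h₀ θ * h₀ * (2 / (h₀:ℝ)) ^ 2 ≤ 1 := by
          calc fej h₀ θ * h₀ * (2 / (h₀:ℝ)) ^ 2 ≤ fej h₀ θ * h₀ * Real.sin (θ / 2) ^ 2 :=
                mul_le_mul_of_nonneg_left h4 (by positivity)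
            _ = Real.sin (h₀ * θ / 2) ^ 2 := h5
            _ ≤ 1 := Real.sin_sq_le_one _
        have h8 : fej h₀ θ * h₀ * (2 / (h₀:ℝ)) ^ 2 = 4 * (fej h₀ θ / h₀) := by
          field_simp
          ring
        linarith
      have h7 : fej h θ * fej h₀ θ / h₀ ≤ fej h θ * (1 / 4) := by
        rw [mul_div_assoc]
        exact mul_le_mul_of_nonneg_left h6 hF
      linarith

end Pool.Agent.H887.AH
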